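import Pool.Agent.H635.DR.Blocks

/-!
# The blocks, for many trees simultaneously

For each subset `x` of `W` there is a sequence of blocks `bx G x`. The block of `x` with index `δ`
depends only on the part of `x` below `δ`. At each stage `δ` a guess for two of the subsets and a
set of pairs of words is taken into account.
-/

set_option autoImplicit false

namespace Pool.Agent.H635.DM

open Ordinal Set
open Pool.Agent.H635.Dia (W ρ ρ_lt ρ_lt_ρ ρ_le_ρ ρ_inj exists_ρ mk_W countable_Iio countable_Iic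
  exists_bound eq_zero_of_add_eq exists_lub Diamond)
open Pool.Agent.H635.DR (Seq Word M mmul act act_zero sign_act act_eq_zero act_mmul act_one len cat
  sft ev sh len_append len_sh sh_append ev_append sft_eq_zero ev_sh Words Words_mono nil_mem
  cons_mem append_mem sh_mem len_lt_opow len_lt countable_Words ev_congr IsB ev_ne_zero exists_trunc
  exists_first len_eq_opow Av Good len_replicate exists_good ext_le ev_ext lim lim_eq)

/-- The data guessed at each stage. -/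
structure Gd where
  X : W → Set W
  Y : W → Set W
  S : W → Set (Word × Word)

/-- No pair in `S` of words with indices below `δ` denotes the same pair of sequences as
`(u, u')`. -/
def Av2 (S : Set (Word × Word)) (δ : W) (B B' : W → Seq) (u u' : Word) : Prop :=
  ∀ w ∈ Words δ, ∀ w' ∈ Words δ, (w, w') ∈ S → ¬ (ev B w = ev B u ∧ ev B' w' = ev B' u')

/-- The basic requirements for a sequence of words. -/
structure Bas (δ : W) (U : ℕ → Word) : Prop where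
  mem : ∀ k, U k ∈ Words δ
  ext : ∀ k, ∃ v, U (k + 1) = U k ++ v
  cof : ∀ α < ω ^ ρ δ, ∃ k, α < len (U k)

/-- The killing requirement. -/
def Kill1 (S : Set Word) (δ : W) (B : W → Seq) (U : ℕ → Word) : Prop :=
  (∀ t ∈ Words δ, ∀ n, ∃ v ∈ Words δ, Av S δ B (t ++ sh n v)) →
    ∀ t ∈ Words δ, ∀ n, ∃ k, Av S δ B (t ++ sh n (U k))

/-- The killing requirement for pairs. -/
def Kill2 (S : Set (Word × Word)) (δ : W) (B B' : W → Seq) (U U' : ℕ → Word) : Prop :=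
  (∀ t ∈ Words δ, ∀ t' ∈ Words δ, ∀ n n', ∃ v ∈ Words δ, ∃ v' ∈ Words δ,
    Av2 S δ B B' (t ++ sh n v) (t' ++ sh n' v')) →
    ∀ t ∈ Words δ, ∀ t' ∈ Words δ, ∀ n n', ∃ k,
      Av2 S δ B B' (t ++ sh n (U k)) (t' ++ sh n' (U' k))

theorem exists_seq2 {I : Type} [Countable I] [Nonempty I] (δ : W) (D : I → Word → Word → Prop)
    (hD : ∀ i, ∀ u ∈ Words δ, ∀ u' ∈ Words δ, ∃ v v', u ++ v ∈ Words δ ∧ u' ++ v' ∈ Words δ ∧
      D i (u ++ v) (u' ++ v')) :
    ∃ U U' : ℕ → Word, (∀ k, U k ∈ Words δ) ∧ (∀ k, U' k ∈ Words δ) ∧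
      (∀ k, ∃ v, U (k + 1) = U k ++ v) ∧ (∀ k, ∃ v, U' (k + 1) = U' k ++ v) ∧
      ∀ i, ∃ k, D i (U k) (U' k) := by
  obtain ⟨e, he⟩ := exists_surjective_nat I
  choose! v v' hv1 hv2 hv3 using hD
  let P : ℕ → Word × Word := fun k =>
    Nat.rec ([], []) (fun k u => (u.1 ++ v (e k) u.1 u.2, u.2 ++ v' (e k) u.1 u.2)) k
  have hP : ∀ k, (P k).1 ∈ Words δ ∧ (P k).2 ∈ Words δ := by
    intro k
    induction k with
    | zero => exact ⟨nil_mem δ, nil_mem δ⟩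
    | succ k ih => exact ⟨hv1 _ _ ih.1 _ ih.2, hv2 _ _ ih.1 _ ih.2⟩
  refine ⟨fun k => (P k).1, fun k => (P k).2, fun k => (hP k).1, fun k => (hP k).2,
    fun k => ⟨_, rfl⟩, fun k => ⟨_, rfl⟩, fun i => ?_⟩
  obtain ⟨k, rfl⟩ := he i
  exact ⟨k + 1, hv3 _ _ (hP k).1 _ (hP k).2⟩

theorem exists_good2 (S : Set (Word × Word)) {δ : W} (hδ : ∃ γ, γ < δ) (B B' : W → Seq) :
    ∃ U U', Bas δ U ∧ Bas δ U' ∧ Kill2 S δ B B' U U' := by
  have : Countable (Iio δ) := (countable_Iio δ).to_subtype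
  have : Countable (Words δ) := (countable_Words δ).to_subtype
  obtain ⟨γ₀, hγ₀⟩ := hδ
  have : Nonempty (Iio δ) := ⟨⟨γ₀, hγ₀⟩⟩
  let H : Prop := ∀ t ∈ Words δ, ∀ t' ∈ Words δ, ∀ n n', ∃ v ∈ Words δ, ∃ v' ∈ Words δ,
    Av2 S δ B B' (t ++ sh n v) (t' ++ sh n' v')
  let D : (Iio δ × ℕ) ⊕ ((Words δ × Words δ) × (M × M)) → Word → Word → Prop := fun i u u' =>
    match i with
    | Sum.inl p => ω ^ ρ p.1 * p.2 ≤ len u ∧ ω ^ ρ p.1 * p.2 ≤ len u'
    | Sum.inr q => H → Av2 S δ B B' ((q.1.1 : Word) ++ sh q.2.1 u) ((q.1.2 : Word) ++ sh q.2.2 u')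
  obtain ⟨U, U', h1, h1', h2, h2', h3⟩ := exists_seq2 δ D (by
    rintro (⟨⟨γ, hγ⟩, m⟩ | ⟨⟨⟨t, ht⟩, ⟨t', ht'⟩⟩, ⟨n, n'⟩⟩) u hu u' hu'
    · have hr : List.replicate m (γ, ((0, 1) : M)) ∈ Words δ := fun p hp => by
        rw [List.eq_of_mem_replicate hp]
        exact hγ
      refine ⟨List.replicate m (γ, (0, 1)), List.replicate m (γ, (0, 1)), append_mem.2 ⟨hu, hr⟩,
        append_mem.2 ⟨hu', hr⟩, ?_, ?_⟩
      · change ω ^ ρ γ * m ≤ len _
        rw [len_append, len_replicate]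
        exact le_add_self
      · change ω ^ ρ γ * m ≤ len _
        rw [len_append, len_replicate]
        exact le_add_self
    · by_cases hH : H
      · obtain ⟨v, hv, v', hv', hv2⟩ := hH (t ++ sh n u) (append_mem.2 ⟨ht, sh_mem.2 hu⟩)
          (t' ++ sh n' u') (append_mem.2 ⟨ht', sh_mem.2 hu'⟩) n n'
        refine ⟨v, v', append_mem.2 ⟨hu, hv⟩, append_mem.2 ⟨hu', hv'⟩, fun _ => ?_⟩
        change Av2 S δ B B' (t ++ sh n (u ++ v)) (t' ++ sh n' (u' ++ v'))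
        rw [sh_append, ← List.append_assoc, sh_append, ← List.append_assoc]
        exact hv2
      · refine ⟨[], [], by rw [List.append_nil]; exact hu, by rw [List.append_nil]; exact hu',
          fun h => absurd h hH⟩)
  have hcof : ∀ α < ω ^ ρ δ, ∃ k, α < len (U k) ∧ α < len (U' k) := by
    intro α hα
    have h0 : ρ δ ≠ 0 := by
      have : ρ γ₀ < ρ δ := ρ_lt_ρ.2 hγ₀
      exact (bot_le.trans_lt this).ne'
    obtain ⟨c, hc, m, hm⟩ := (Ordinal.lt_omega0_opow h0).1 hα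
    obtain ⟨γ, rfl⟩ := exists_ρ (hc.trans (ρ_lt δ))
    obtain ⟨k, hk, hk'⟩ := h3 (Sum.inl (⟨γ, ρ_lt_ρ.1 hc⟩, m))
    exact ⟨k, hm.trans_le hk, hm.trans_le hk'⟩
  refine ⟨U, U', ⟨h1, h2, fun α hα => ?_⟩, ⟨h1', h2', fun α hα => ?_⟩,
    fun hH t ht t' ht' n n' => ?_⟩
  · obtain ⟨k, hk, -⟩ := hcof α hα
    exact ⟨k, hk⟩
  · obtain ⟨k, -, hk⟩ := hcof α hα
    exact ⟨k, hk⟩
  · obtain ⟨k, hk⟩ := h3 (Sum.inr ((⟨t, ht⟩, ⟨t', ht'⟩), (n, n')))
    exact ⟨k, hk hH⟩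

/-- The selection of sequences of words for all the trees. -/
theorem exists_sel (S : Set (Word × Word)) {δ : W} (hδ : ∃ γ, γ < δ) (X Y : Set W)
    (B : W → Set W → Seq) : ∃ sel : Set W → ℕ → Word, (∀ x, Bas δ (sel x)) ∧
      (X = Y → Kill1 {w | (w, w) ∈ S} δ (fun γ => B γ X) (sel X)) ∧
      (X ≠ Y → Kill2 S δ (fun γ => B γ X) (fun γ => B γ Y) (sel X) (sel Y)) := by
  classical
  by_cases h : X = Y
  · obtain ⟨U, hU⟩ := exists_good {w | (w, w) ∈ S} hδ (fun γ => B γ X)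
    exact ⟨fun _ => U, fun _ => ⟨hU.mem, hU.ext, hU.cof⟩, fun _ => hU.kill, fun h' => absurd h h'⟩
  · obtain ⟨U, U', hU, hU', hk⟩ := exists_good2 S hδ (fun γ => B γ X) (fun γ => B γ Y)
    refine ⟨fun x => if x = X then U else U', fun x => ?_, fun h' => absurd h' h, fun _ => ?_⟩
    · by_cases hx : x = X
      · simp only [hx, if_true]
        exact hU
      · simp only [hx, if_false]
        exact hU'
    · have hY : ¬ Y = X := fun h' => h h'.symm
      simp only [if_true, hY, if_false]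
      exact hk

open Classical in
/-- The blocks with index `δ`, if `B` contains the blocks with smaller indices. -/
noncomputable def mk (G : Gd) (δ : W) (B : W → Set W → Seq) (x : Set W) : Seq :=
  if h : ∃ γ, γ < δ then
    lim (fun γ => B γ x) ((exists_sel (G.S δ) h (G.X δ ∩ Iio δ) (G.Y δ ∩ Iio δ) B).choose x)
  else fun ξ => if ξ = 0 then 1 else 0

open Classical in
/-- The blocks. -/
noncomputable def blk (G : Gd) : W → Set W → Seq :=
  WellFounded.fix (wellFounded_lt : WellFounded ((· < ·) : W → W → Prop))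
    (fun δ rec x => mk G δ (fun γ => if h : γ < δ then rec γ h else fun _ _ => 0) (x ∩ Iio δ))

/-- The blocks of `x`. -/
noncomputable def bx (G : Gd) (x : Set W) : W → Seq := fun γ => blk G γ x

open Classical in
/-- The blocks with indices below `δ`. -/
noncomputable def cut (G : Gd) (δ : W) : W → Set W → Seq :=
  fun γ => if γ < δ then blk G γ else fun _ _ => 0

theorem blk_eq (G : Gd) (δ : W) (x : Set W) : blk G δ x = mk G δ (cut G δ) (x ∩ Iio δ) := by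
  unfold blk
  rw [WellFounded.fix_eq]
  congr 1

theorem blk_local (G : Gd) {γ δ : W} (h : γ < δ) (x : Set W) :
    blk G γ (x ∩ Iio δ) = blk G γ x := by
  rw [blk_eq, blk_eq G γ x]
  congr 1
  rw [inter_assoc, Iio_inter_Iio, min_eq_right h.le]

theorem ev_cut {G : Gd} {δ : W} (x : Set W) {w : Word} (hw : w ∈ Words δ) :
    ev (fun γ => cut G δ γ (x ∩ Iio δ)) w = ev (bx G x) w :=
  ev_congr (fun γ hγ => by
    simp only [cut, hγ, if_true]
    exact blk_local G hγ x) hw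

/-- The chosen sequence. -/
noncomputable def sl (G : Gd) {δ : W} (hδ : ∃ γ, γ < δ) (x : Set W) : ℕ → Word :=
  (exists_sel (G.S δ) hδ (G.X δ ∩ Iio δ) (G.Y δ ∩ Iio δ) (cut G δ)).choose (x ∩ Iio δ)

theorem sl_bas (G : Gd) {δ : W} (hδ : ∃ γ, γ < δ) (x : Set W) : Bas δ (sl G hδ x) :=
  (exists_sel (G.S δ) hδ (G.X δ ∩ Iio δ) (G.Y δ ∩ Iio δ) (cut G δ)).choose_spec.1 _

theorem blk_sl (G : Gd) {δ : W} (hδ : ∃ γ, γ < δ) (x : Set W) (k : ℕ) (ξ : Ordinal.{0})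
    (hξ : ξ < len (sl G hδ x k)) : bx G x δ ξ = ev (bx G x) (sl G hδ x k) ξ := by
  have h := sl_bas G hδ x
  change blk G δ x ξ = _
  rw [blk_eq]
  unfold mk
  rw [dif_pos hδ, ← ev_cut x (h.mem k)]
  exact lim_eq h.ext _ hξ

theorem sl_kill1 (G : Gd) {δ : W} (hδ : ∃ γ, γ < δ) (x : Set W)
    (hX : x ∩ Iio δ = G.X δ ∩ Iio δ) (hY : x ∩ Iio δ = G.Y δ ∩ Iio δ) :
    Kill1 {w | (w, w) ∈ G.S δ} δ (bx G x) (sl G hδ x) := by
  have h := (exists_sel (G.S δ) hδ (G.X δ ∩ Iio δ) (G.Y δ ∩ Iio δ) (cut G δ)).choose_spec.2.1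
    (hX.symm.trans hY)
  have hb := sl_bas G hδ x
  have hav : ∀ u ∈ Words δ, (Av {w | (w, w) ∈ G.S δ} δ (fun γ => cut G δ γ (G.X δ ∩ Iio δ)) u ↔
      Av {w | (w, w) ∈ G.S δ} δ (bx G x) u) := by
    intro u hu
    unfold Av
    refine forall_congr' fun w => forall_congr' fun hw => ?_
    rw [← hX, ev_cut x hw, ev_cut x hu]
  intro hH t ht n
  obtain ⟨k, hk⟩ := h (fun t ht n => by
    obtain ⟨v, hv, hv2⟩ := hH t ht n
    exact ⟨v, hv, (hav _ (append_mem.2 ⟨ht, sh_mem.2 hv⟩)).2 hv2⟩) t ht n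
  refine ⟨k, ?_⟩
  have hk2 : (exists_sel (G.S δ) hδ (G.X δ ∩ Iio δ) (G.Y δ ∩ Iio δ) (cut G δ)).choose
      (G.X δ ∩ Iio δ) k = sl G hδ x k := by
    unfold sl
    rw [hX]
  rw [hk2] at hk
  exact (hav _ (append_mem.2 ⟨ht, sh_mem.2 (hb.mem k)⟩)).1 hk

theorem sl_kill2 (G : Gd) {δ : W} (hδ : ∃ γ, γ < δ) (x y : Set W)
    (hX : x ∩ Iio δ = G.X δ ∩ Iio δ) (hY : y ∩ Iio δ = G.Y δ ∩ Iio δ)
    (hxy : x ∩ Iio δ ≠ y ∩ Iio δ) :
    Kill2 (G.S δ) δ (bx G x) (bx G y) (sl G hδ x) (sl G hδ y) := by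
  have h := (exists_sel (G.S δ) hδ (G.X δ ∩ Iio δ) (G.Y δ ∩ Iio δ) (cut G δ)).choose_spec.2.2
    (by rw [← hX, ← hY]; exact hxy)
  have hb := sl_bas G hδ x
  have hb' := sl_bas G hδ y
  have hav : ∀ u ∈ Words δ, ∀ u' ∈ Words δ, (Av2 (G.S δ) δ
      (fun γ => cut G δ γ (G.X δ ∩ Iio δ)) (fun γ => cut G δ γ (G.Y δ ∩ Iio δ)) u u' ↔
      Av2 (G.S δ) δ (bx G x) (bx G y) u u') := by
    intro u hu u' hu'
    unfold Av2
    refine forall_congr' fun w => forall_congr' fun hw => forall_congr' fun w' =>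
      forall_congr' fun hw' => ?_
    rw [← hX, ← hY, ev_cut x hw, ev_cut x hu, ev_cut y hw', ev_cut y hu']
  intro hH t ht t' ht' n n'
  obtain ⟨k, hk⟩ := h (fun t ht t' ht' n n' => by
    obtain ⟨v, hv, v', hv', hv2⟩ := hH t ht t' ht' n n'
    exact ⟨v, hv, v', hv', (hav _ (append_mem.2 ⟨ht, sh_mem.2 hv⟩) _
      (append_mem.2 ⟨ht', sh_mem.2 hv'⟩)).2 hv2⟩) t ht t' ht' n n'
  refine ⟨k, ?_⟩
  have hk2 : (exists_sel (G.S δ) hδ (G.X δ ∩ Iio δ) (G.Y δ ∩ Iio δ) (cut G δ)).choose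
      (G.X δ ∩ Iio δ) k = sl G hδ x k := by
    unfold sl
    rw [hX]
  have hk3 : (exists_sel (G.S δ) hδ (G.X δ ∩ Iio δ) (G.Y δ ∩ Iio δ) (cut G δ)).choose
      (G.Y δ ∩ Iio δ) k = sl G hδ y k := by
    unfold sl
    rw [hY]
  rw [hk2, hk3] at hk
  exact (hav _ (append_mem.2 ⟨ht, sh_mem.2 (hb.mem k)⟩) _
    (append_mem.2 ⟨ht', sh_mem.2 (hb'.mem k)⟩)).1 hk

theorem blk_isB (G : Gd) (x : Set W) (δ : W) : IsB (bx G x) δ := by
  induction δ using WellFoundedLT.induction with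
  | ind δ ih =>
    by_cases hδ : ∃ γ, γ < δ
    · have hU := sl_bas G hδ x
      have h := blk_sl G hδ x
      have hne : ∀ k, ∀ ξ, ev (bx G x) (sl G hδ x k) ξ ≠ 0 ↔ ξ < len (sl G hδ x k) := fun k ξ =>
        ev_ne_zero (fun p hp => ih _ (hU.mem k p hp)) ξ
      refine ⟨fun ξ => ⟨fun h1 => ?_, fun h1 => ?_⟩, fun α hα => ?_⟩
      · by_contra h2
        apply h1
        change blk G δ x ξ = 0
        rw [blk_eq]
        unfold mk
        rw [dif_pos hδ]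
        unfold lim
        rw [dif_neg]
        rintro ⟨k, hk⟩
        apply h2
        exact hk.trans (len_lt_opow (hU.mem k))
      · obtain ⟨k, hk⟩ := hU.cof ξ h1
        rw [h k ξ hk]
        exact (hne k ξ).2 hk
      · obtain ⟨k, hk⟩ := hU.cof α hα
        obtain ⟨w', h1, h2, h3⟩ := exists_trunc ih (hU.mem k) hk.le
        refine ⟨w', h1, h2, fun ξ hξ => ?_⟩
        rw [h3 ξ hξ, h k ξ (hξ.trans hk)]
    · have h0 : ρ δ = 0 := by
        by_contra h1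
        obtain ⟨γ, hγ⟩ := exists_ρ (Ordinal.omega_pos 1)
        apply hδ
        refine ⟨γ, ρ_lt_ρ.1 ?_⟩
        rw [hγ]
        exact bot_lt_iff_ne_bot.2 h1
      have h1 : ∀ ξ, bx G x δ ξ = if ξ = 0 then 1 else 0 := by
        intro ξ
        change blk G δ x ξ = _
        rw [blk_eq]
        unfold mk
        rw [dif_neg hδ]
      have h2 : ω ^ ρ δ = (1 : Ordinal.{0}) := by rw [h0, Ordinal.opow_zero]
      refine ⟨fun ξ => ?_, fun α hα => ?_⟩
      · rw [h1, h2]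
        by_cases h3 : ξ = 0
        · simp [h3]
        · simp [h3]
      · rw [h2] at hα
        have h3 : α = 0 := Order.lt_one_iff.1 hα
        refine ⟨[], nil_mem δ, h3.symm, fun ξ hξ => ?_⟩
        rw [h3] at hξ
        exact absurd hξ (not_lt_bot)

theorem blk_one (G : Gd) (x : Set W) {a : W} (ha : ρ a = 0) : bx G x a 0 = 1 := by
  have hno : ¬ ∃ γ, γ < a := by
    rintro ⟨γ, hγ⟩
    have := ρ_lt_ρ.2 hγ
    rw [ha] at this
    exact not_lt_bot this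
  change blk G a x 0 = 1
  rw [blk_eq]
  unfold mk
  rw [dif_neg hno, if_pos rfl]

end Pool.Agent.H635.DM
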