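import Pool.Agent.H635.DM.Line

/-!
# The lines for different subsets have no common uncountable suborder
-/

set_option autoImplicit false

namespace Pool.Agent.H635.DM

open Ordinal Set
open Pool.Agent.H635.Dia (W ρ ρ_lt ρ_lt_ρ ρ_le_ρ ρ_inj exists_ρ mk_W countable_Iio countable_Iic
  exists_bound eq_zero_of_add_eq exists_lub Diamond eventually_const)
open Pool.Agent.H635.DR (Seq Word M mmul act act_zero sign_act act_eq_zero act_mmul act_one len cat
  sft ev sh len_append len_sh sh_append ev_append sft_eq_zero ev_sh Words Words_mono nil_mem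
  cons_mem append_mem sh_mem len_lt_opow len_lt countable_Words ev_congr IsB ev_ne_zero exists_trunc
  exists_first len_eq_opow Av Good len_replicate exists_good ext_le ev_ext lim lim_eq mk_Word
  exists_mem_Words exists_Words)

variable {b : W → Seq} [Blocks b]

/-- `w` denotes an initial segment of `f`. -/
def Seg (b : W → Seq) (w : Word) (f : W → ℤ) : Prop := ∃ z, len w ≤ ρ z ∧ E b w = tr z f

theorem Seg.down {w w' : Word} {f : W → ℤ} (h : Seg b w f) (hw' : Ini b w' w) : Seg b w' f := by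
  obtain ⟨x, hx, hx2⟩ := h
  obtain ⟨y, hy⟩ := exists_len_eq w'
  refine ⟨y, hy.ge, ?_⟩
  rw [E_ini hw' y hy, hx2]
  have hyx : y ≤ x := by rw [← ρ_le_ρ, hy]; exact hw'.1.trans hx
  funext z
  by_cases hz : z < y
  · rw [tr_of_lt hz, tr_of_lt hz, tr_of_lt (hz.trans_le hyx)]
  · rw [tr_of_le (not_lt.1 hz), tr_of_le (not_lt.1 hz)]

theorem exists_seg {f : W → ℤ} (hf : f ∈ Nd b) {x : W} (h : ¬ ∀ y, x ≤ y → f y = 0) :
    ∃ w, Seg b w f ∧ ρ x ≤ len w := by
  push Not at h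
  obtain ⟨y, hy, hy2⟩ := h
  obtain ⟨w, hw⟩ := hf
  rw [← hw] at hy2
  have h3 := (E_ne_zero (b := b) w y).1 hy2
  obtain ⟨z, hz⟩ := exists_len_eq w
  refine ⟨w, ⟨z, hz.ge, ?_⟩, (ρ_le_ρ.2 hy).trans h3.le⟩
  rw [← hw, tr_E_self hz.ge]

theorem seg_val {t : Word} {j : ℕ} {a : W} (ha : ρ a = 0) {i : ℕ} {f : W → ℤ}
    (h : Seg b (t ++ sh (j, 1) [(a, (i, 1))]) f) {x : W} (hx : ρ x = len t) :
    f x = 1 + i + j ∧ ∀ y < x, f y = ev b t (ρ y) := by
  obtain ⟨z, hz, hz2⟩ := h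
  rw [len_append, len_sh, len_single ha] at hz
  have hxz : x < z := by
    rw [← ρ_lt_ρ, hx]
    exact (lt_add_of_pos_right _ zero_lt_one).trans_le hz
  constructor
  · have h3 := congrFun hz2 x
    rw [tr_of_lt hxz] at h3
    rw [← h3]
    unfold E
    rw [ev_append, hx, if_neg (lt_irrefl _), Ordinal.sub_self, ev_sh]
    change act (j, 1) (ev b [(a, (i, 1))] 0) = _
    rw [ev_single ha, ← act_mmul]
    unfold act mmul
    simp
    ring
  · intro y hy
    have h3 := congrFun hz2 y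
    rw [tr_of_lt (hy.trans hxz)] at h3
    rw [← h3]
    unfold E
    rw [ev_append, if_pos (by rw [← hx]; exact ρ_lt_ρ.2 hy)]

theorem seg_lt {t : Word} {j : ℕ} {a : W} (ha : ρ a = 0) {f f' : W → ℤ}
    (h : Seg b (t ++ sh (j, 1) [(a, (0, 1))]) f) (h' : Seg b (t ++ sh (j, 1) [(a, (1, 1))]) f') :
    Lt f f' := by
  obtain ⟨x, hx⟩ := exists_len_eq t
  have h1 := seg_val ha h hx
  have h2 := seg_val ha h' hx
  refine ⟨x, fun y hy => ?_, ?_⟩
  · rw [h1.2 y hy, h2.2 y hy]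
  · rw [h1.1, h2.1]
    push_cast
    omega

theorem far {G : Gd} (hG : Guesses G) {x y : Set W} (hxy : x ≠ y) (K : Set (Ln (bx G x)))
    (hK : ¬ K.Countable) (φ : K → Ln (bx G y)) (hφ : StrictMono φ) : False := by
  have hKu : Uncountable K := by
    rw [← not_countable_iff]
    intro h
    exact hK (countable_coe_iff.1 h)
  obtain ⟨t, t', n, n', hv₀⟩ := capture2 hG hxy
    {p | ∃ k : K, Seg (bx G x) p.1 (ofLex k.1.1) ∧ Seg (bx G y) p.2 (ofLex (φ k).1)} (by
      rintro p ⟨k, h1, h2⟩ u u' hu hu'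
      exact ⟨k, h1.down hu, h2.down hu'⟩) (by
      intro z
      have h1 : ∃ k : K, (¬ ∀ y, z ≤ y → ofLex k.1.1 y = 0) ∧
          ¬ ∀ y, z ≤ y → ofLex (φ k).1 y = 0 := by
        by_contra hcon
        push Not at hcon
        have h2 : (univ : Set K) ⊆ {k : K | ∀ y, z ≤ y → ofLex k.1.1 y = 0} ∪
            {k : K | ∀ y, z ≤ y → ofLex (φ k).1 y = 0} := by
          intro k _
          by_cases hk : ∀ y, z ≤ y → ofLex k.1.1 y = 0
          · exact Or.inl hk
          · right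
            push Not at hk
            exact hcon k hk
        have h3 : {k : K | ∀ y, z ≤ y → ofLex k.1.1 y = 0}.Countable := by
          have h4 : MapsTo (fun k : K => ofLex k.1.1) {k : K | ∀ y, z ≤ y → ofLex k.1.1 y = 0}
              {f | f ∈ Nd (bx G x) ∧ ∀ y, z ≤ y → f y = 0} := fun k hk => ⟨k.1.2, hk⟩
          exact h4.countable_of_injOn (fun a _ b _ hab => Subtype.ext (Subtype.ext hab))
            (countable_Nd z)
        have h5 : {k : K | ∀ y, z ≤ y → ofLex (φ k).1 y = 0}.Countable := by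
          have h4 : MapsTo (fun k : K => ofLex (φ k).1) {k : K | ∀ y, z ≤ y → ofLex (φ k).1 y = 0}
              {f | f ∈ Nd (bx G y) ∧ ∀ y, z ≤ y → f y = 0} := fun k hk => ⟨(φ k).2, hk⟩
          exact h4.countable_of_injOn (fun a _ b _ hab => hφ.injective (Subtype.ext hab))
            (countable_Nd z)
        exact not_countable_univ ((h3.union h5).mono h2)
      obtain ⟨k, h2, h3⟩ := h1
      obtain ⟨w, hw, hw2⟩ := exists_seg k.1.2 h2
      obtain ⟨w', hw', hw2'⟩ := exists_seg (φ k).2 h3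
      exact ⟨(w, w'), ⟨k, hw, hw'⟩, hw2, hw2'⟩)
  obtain ⟨j, ε⟩ := n
  obtain ⟨j', ε'⟩ := n'
  have hv : ∀ v v', ∃ k : K, Seg (bx G x) (t ++ sh (j, 1) v) (ofLex k.1.1) ∧
      Seg (bx G y) (t' ++ sh (j', 1) v') (ofLex (φ k).1) := by
    intro v v'
    have h1 := hv₀ (sh (0, ε) v) (sh (0, ε') v')
    have h2 : ∀ (j : ℕ) (ε : ℤˣ), mmul (j, ε) (0, ε) = (j, 1) := by
      intro j ε
      unfold mmul
      simp only [add_zero, Int.units_mul_self]
    rw [sh_sh, sh_sh, h2, h2] at h1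
    exact h1
  obtain ⟨a, ha⟩ := exists_ρ (Ordinal.omega_pos 1)
  obtain ⟨k₁, h1, h2⟩ := hv [(a, (0, 1))] [(a, (1, 1))]
  obtain ⟨k₂, h3, h4⟩ := hv [(a, (1, 1))] [(a, (0, 1))]
  have h5 : k₁ < k₂ := seg_lt ha h1 h3
  have h6 : φ k₂ < φ k₁ := seg_lt ha h4 h2
  exact lt_asymm h6 (hφ h5)

end Pool.Agent.H635.DM
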