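import Pool.Agent.H635.DM.Blocks
import Pool.Agent.H635.DR.Guess

/-!
# Guessing pairs of subsets and sets of pairs of words, and the capturing lemmas
-/

set_option autoImplicit false

namespace Pool.Agent.H635.DM

open Ordinal Set
open Pool.Agent.H635.Dia (W ρ ρ_lt ρ_lt_ρ ρ_le_ρ ρ_inj exists_ρ mk_W countable_Iio countable_Iic
  exists_bound eq_zero_of_add_eq exists_lub Diamond)
open Pool.Agent.H635.DR (Seq Word M mmul act act_zero sign_act act_eq_zero act_mmul act_one len cat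
  sft ev sh len_append len_sh sh_append ev_append sft_eq_zero ev_sh Words Words_mono nil_mem
  cons_mem append_mem sh_mem len_lt_opow len_lt countable_Words ev_congr IsB ev_ne_zero exists_trunc
  exists_first len_eq_opow Av Good len_replicate exists_good ext_le ev_ext lim lim_eq mk_Word
  exists_mem_Words exists_Words)

/-- The points to be coded. -/
abbrev TT : Type := W ⊕ (W ⊕ (Word × Word))

/-- The points below `δ`. -/
def TS (δ : W) : Set TT := {τ | match τ with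
  | Sum.inl a => a < δ
  | Sum.inr (Sum.inl a) => a < δ
  | Sum.inr (Sum.inr p) => p.1 ∈ Words δ ∧ p.2 ∈ Words δ}

theorem TS_mono {δ δ' : W} (h : δ ≤ δ') : TS δ ⊆ TS δ' := by
  rintro (a | a | p) hτ
  · exact lt_of_lt_of_le (α := W) hτ h
  · exact lt_of_lt_of_le (α := W) hτ h
  · exact ⟨Words_mono h hτ.1, Words_mono h hτ.2⟩

theorem TS_cont {d : Set W} (hne : d.Nonempty) {a : W} (ha : IsLUB d a) {τ : TT}
    (hτ : τ ∈ TS a) : ∃ δ ∈ d, τ ∈ TS δ := by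
  rcases τ with b | b | p
  · exact (lt_isLUB_iff ha).1 hτ
  · exact (lt_isLUB_iff ha).1 hτ
  · obtain ⟨δ, hδ, h1⟩ := exists_mem_Words hne ha hτ.1
    obtain ⟨δ', hδ', h2⟩ := exists_mem_Words hne ha hτ.2
    rcases le_total δ δ' with h | h
    · exact ⟨δ', hδ', Words_mono h h1, h2⟩
    · exact ⟨δ, hδ, h1, Words_mono h h2⟩

theorem TS_countable (δ : W) : (TS δ).Countable := by
  have h : TS δ ⊆ (Sum.inl '' Iio δ) ∪ (((fun a => Sum.inr (Sum.inl a)) '' Iio δ) ∪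
      ((fun p => Sum.inr (Sum.inr p)) '' (Words δ ×ˢ Words δ))) := by
    rintro (a | a | p) hτ
    · exact Or.inl ⟨a, hτ, rfl⟩
    · exact Or.inr (Or.inl ⟨a, hτ, rfl⟩)
    · exact Or.inr (Or.inr ⟨p, hτ, rfl⟩)
  exact (((countable_Iio δ).image _).union (((countable_Iio δ).image _).union
    (((countable_Words δ).prod (countable_Words δ)).image _))).mono h

theorem TS_exists (τ : TT) : ∃ δ, τ ∈ TS δ := by
  rcases τ with a | a | p
  · obtain ⟨b, hb⟩ := exists_bound (countable_singleton a)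
    exact ⟨b, hb a rfl⟩
  · obtain ⟨b, hb⟩ := exists_bound (countable_singleton a)
    exact ⟨b, hb a rfl⟩
  · obtain ⟨δ, h1⟩ := exists_Words p.1
    obtain ⟨δ', h2⟩ := exists_Words p.2
    exact ⟨max δ δ', Words_mono (le_max_left _ _) h1, Words_mono (le_max_right _ _) h2⟩

theorem isClub_TS {ι : Type} [Countable ι] (c : TT → W) (F : TT → ι → TT) :
    IsClub {δ : W | (∃ γ, γ < δ) ∧ ∀ τ ∈ TS δ, c τ < δ ∧ ∀ n, F τ n ∈ TS δ} := by
  constructor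
  · intro d hd hne _ a ha
    by_cases had : a ∈ d
    · exact hd had
    · refine ⟨?_, fun τ hτ => ?_⟩
      · obtain ⟨δ, hδ⟩ := hne
        obtain ⟨γ, hγ⟩ := (hd hδ).1
        exact ⟨γ, hγ.trans_le (ha.1 hδ)⟩
      · obtain ⟨δ, hδ, h1⟩ := TS_cont hne ha hτ
        obtain ⟨h2, h3⟩ := (hd hδ).2 τ h1
        exact ⟨h2.trans_le (ha.1 hδ), fun n => TS_mono (ha.1 hδ) (h3 n)⟩
  · intro x
    choose E hE using TS_exists
    have hnext : ∀ y : W, ∃ z, y < z ∧ ∀ τ ∈ TS y, c τ < z ∧ ∀ n, F τ n ∈ TS z := by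
      intro y
      have hc : ({y} ∪ ⋃ τ ∈ TS y, ({c τ} ∪ ⋃ n, {E (F τ n)}) : Set W).Countable := by
        refine (countable_singleton y).union ((TS_countable y).biUnion fun τ _ => ?_)
        exact (countable_singleton _).union (countable_iUnion fun n => countable_singleton _)
      obtain ⟨z, hz⟩ := exists_bound hc
      refine ⟨z, hz y (Or.inl rfl), fun τ hτ => ⟨?_, fun n => ?_⟩⟩
      · exact hz _ (Or.inr (mem_biUnion hτ (Or.inl rfl)))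
      · exact TS_mono (hz _ (Or.inr (mem_biUnion hτ (Or.inr (mem_iUnion.2 ⟨n, rfl⟩))))).le (hE _)
    choose g hg1 hg2 using hnext
    let y : ℕ → W := fun k => g^[k] x
    have hy : ∀ k, y (k + 1) = g (y k) := fun k => Function.iterate_succ_apply' g k x
    obtain ⟨b, hb⟩ := exists_bound (countable_range y)
    obtain ⟨a, ha⟩ := exists_lub (range y) ⟨b, fun z hz => (hb z hz).le⟩
    have hlt : ∀ k, y k < a := by
      intro k
      have h1 : y (k + 1) ≤ a := ha.1 ⟨k + 1, rfl⟩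
      rw [hy] at h1
      exact (hg1 _).trans_le h1
    refine ⟨a, ⟨⟨x, hlt 0⟩, fun τ hτ => ?_⟩, (hlt 0).le⟩
    obtain ⟨_, ⟨k, rfl⟩, h1⟩ := TS_cont (range_nonempty y) ha hτ
    obtain ⟨h2, h3⟩ := hg2 (y k) τ h1
    rw [← hy] at h2 h3
    exact ⟨h2.trans (hlt _), fun n => TS_mono (hlt _).le (h3 n)⟩

theorem mk_TT : Cardinal.mk TT = Cardinal.mk W := by
  have h0 := Cardinal.aleph0_le_mk W
  simp only [Cardinal.mk_sum, Cardinal.mk_prod, Cardinal.lift_id]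
  rw [mk_Word, Cardinal.mul_eq_self h0, Cardinal.add_eq_self h0, Cardinal.add_eq_self h0]

/-- The property of the guesses. -/
def Guesses (G : Gd) : Prop := ∀ (x y : Set W) (S : Set (Word × Word))
    (f f' : Word → Word → M → M → Word) (γ₀ : W), ∃ δ, γ₀ < δ ∧
      x ∩ Iio δ = G.X δ ∩ Iio δ ∧ y ∩ Iio δ = G.Y δ ∩ Iio δ ∧
      (∀ w ∈ Words δ, ∀ w' ∈ Words δ, ((w, w') ∈ S ↔ (w, w') ∈ G.S δ)) ∧
      ∀ w ∈ Words δ, ∀ w' ∈ Words δ, ∀ n n', f w w' n n' ∈ Words δ ∧ f' w w' n n' ∈ Words δ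

theorem guess (h : Diamond) : ∃ G : Gd, Guesses G := by
  obtain ⟨c⟩ : Nonempty (TT ≃ W) := Cardinal.eq.1 mk_TT
  obtain ⟨A, -, hA⟩ := h
  refine ⟨⟨fun δ => {a | c (Sum.inl a) ∈ A δ}, fun δ => {a | c (Sum.inr (Sum.inl a)) ∈ A δ},
    fun δ => {p | c (Sum.inr (Sum.inr p)) ∈ A δ}⟩, fun x y S f f' γ₀ => ?_⟩
  let Z : Set TT := {τ | match τ with
    | Sum.inl a => a ∈ x
    | Sum.inr (Sum.inl a) => a ∈ y
    | Sum.inr (Sum.inr p) => p ∈ S}
  let F : TT → M × M → TT := fun τ n => match τ with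
    | Sum.inl a => Sum.inl a
    | Sum.inr (Sum.inl a) => Sum.inr (Sum.inl a)
    | Sum.inr (Sum.inr p) => Sum.inr (Sum.inr (f p.1 p.2 n.1 n.2, f' p.1 p.2 n.1 n.2))
  obtain ⟨δ, h1, -, h3⟩ := hA (c '' Z) (isClub_TS (fun τ => max (c τ) γ₀) F)
  have h4 : ∀ τ ∈ TS δ, (τ ∈ Z ↔ c τ ∈ A δ) := by
    intro τ hτ
    rw [← (h1 : c '' Z ∩ Iio δ = A δ)]
    constructor
    · intro h5
      exact ⟨⟨τ, h5, rfl⟩, (le_max_left _ _).trans_lt (h3 τ hτ).1⟩
    · rintro ⟨⟨τ', h5, h6⟩, -⟩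
      rw [← c.injective h6]
      exact h5
  refine ⟨δ, ?_, ?_, ?_, fun w hw w' hw' => ?_, fun w hw w' hw' n n' => ?_⟩
  · have h5 : (Sum.inr (Sum.inr ([], [])) : TT) ∈ TS δ := ⟨nil_mem δ, nil_mem δ⟩
    exact (le_max_right _ _).trans_lt (h3 _ h5).1
  · ext a
    constructor
    · rintro ⟨h5, h6⟩
      exact ⟨(h4 (Sum.inl a) h6).1 h5, h6⟩
    · rintro ⟨h5, h6⟩
      exact ⟨(h4 (Sum.inl a) h6).2 h5, h6⟩
  · ext a
    constructor
    · rintro ⟨h5, h6⟩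
      exact ⟨(h4 (Sum.inr (Sum.inl a)) h6).1 h5, h6⟩
    · rintro ⟨h5, h6⟩
      exact ⟨(h4 (Sum.inr (Sum.inl a)) h6).2 h5, h6⟩
  · exact h4 (Sum.inr (Sum.inr (w, w'))) ⟨hw, hw'⟩
  · exact (h3 (Sum.inr (Sum.inr (w, w'))) ⟨hw, hw'⟩).2 (n, n')

/-- The properties of a sequence of blocks. -/
class Blocks (b : W → Seq) : Prop where
  isB : ∀ x, IsB b x
  one : ∀ a, ρ a = 0 → b a 0 = 1

instance (G : Gd) (x : Set W) : Blocks (bx G x) := ⟨blk_isB G x, fun _ ha => blk_one G x ha⟩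

variable {b : W → Seq} [Blocks b]

/-- The word `w'` denotes an initial segment of what `w` denotes. -/
def Ini (b : W → Seq) (w' w : Word) : Prop :=
  len w' ≤ len w ∧ ∀ ξ < len w', ev b w' ξ = ev b w ξ

theorem ev_blk_ne_zero (w : Word) (ξ : Ordinal.{0}) : ev b w ξ ≠ 0 ↔ ξ < len w :=
  ev_ne_zero (fun p _ => Blocks.isB p.1) ξ

theorem ev_blk_eq_zero (w : Word) (ξ : Ordinal.{0}) : ev b w ξ = 0 ↔ len w ≤ ξ := by
  rw [← not_iff_not, ← Ne, ev_blk_ne_zero, not_le]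

theorem exists_ini {w : Word} {α : Ordinal.{0}} (h : α ≤ len w) :
    ∃ w', len w' = α ∧ Ini b w' w := by
  obtain ⟨δ, hδ⟩ := exists_Words w
  obtain ⟨w', _, h2, h3⟩ := exists_trunc (b := b) (fun x _ => Blocks.isB x) hδ h
  exact ⟨w', h2, h2 ▸ h, fun ξ hξ => h3 ξ (h2 ▸ hξ)⟩

theorem ini_of_ev_eq {u w : Word} (h : ev b u = ev b w) : Ini b u w := by
  refine ⟨?_, fun ξ _ => congrFun h ξ⟩
  have h4 : ∀ ξ, ξ < len u ↔ ξ < len w := by
    intro ξ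
    rw [← ev_blk_ne_zero (b := b), ← ev_blk_ne_zero (b := b), h]
  exact le_of_forall_lt fun ξ hξ => (h4 ξ).1 hξ

theorem ini_sl (G : Gd) {δ : W} (hδ : ∃ γ, γ < δ) (x : Set W) (t : Word) (n : M) (k : ℕ) :
    Ini (bx G x) (t ++ sh n (sl G hδ x k)) (t ++ [(δ, n)]) := by
  have hU := sl_bas G hδ x
  have hlen : len (t ++ [(δ, n)]) = len t + ω ^ ρ δ := by
    rw [len_append]
    simp [len]
  refine ⟨?_, fun ξ hξ => ?_⟩
  · rw [len_append, len_sh, hlen]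
    exact add_le_add_right (len_lt_opow (hU.mem k)).le _
  · rw [ev_append, ev_append]
    by_cases h3 : ξ < len t
    · simp [h3]
    · simp only [h3, if_false]
      rw [len_append, len_sh] at hξ
      have h4 : len t + (ξ - len t) = ξ := Ordinal.add_sub_cancel_of_le (not_lt.1 h3)
      rw [← h4] at hξ
      have h5 : ξ - len t < len (sl G hδ x k) := lt_of_add_lt_add_left hξ
      have h6 : ξ - len t < ω ^ ρ δ := h5.trans (len_lt_opow (hU.mem k))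
      rw [ev_sh]
      change _ = cat (ω ^ ρ δ) (sft n (bx G x δ)) (fun _ => 0) (ξ - len t)
      simp only [cat, h6, if_true, sft, blk_sl G hδ x k _ h5]

/-- **Capturing.** -/
def Cap (b : W → Seq) : Prop := ∀ (S : Set Word), (∀ w ∈ S, ∀ w', Ini b w' w → w' ∈ S) →
    (∀ x : W, ∃ w ∈ S, ρ x ≤ len w) → ∃ (t : Word) (n : M), ∀ v, t ++ sh n v ∈ S

theorem capture {G : Gd} (hG : Guesses G) (x : Set W) : Cap (bx G x) := by
  intro S hdown hbig
  by_contra hcon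
  push Not at hcon
  choose f hf using hcon
  obtain ⟨γ₀⟩ : Nonempty W := inferInstance
  obtain ⟨δ, hδ₀, hX, hY, h1, h2⟩ := hG x x {p | p.1 = p.2 ∧ p.1 ∈ S} (fun t _ n _ => f t n)
    (fun t _ n _ => f t n) γ₀
  have hδ : ∃ γ, γ < δ := ⟨γ₀, hδ₀⟩
  obtain ⟨z, hz⟩ : ∃ z, ρ z = ω ^ ρ δ :=
    exists_ρ (Ordinal.isPrincipal_opow_omega 1 omega0_lt_omega_one (ρ_lt δ))
  obtain ⟨s, hs, hs2⟩ := hbig z
  rw [hz] at hs2
  obtain ⟨w', hw', hw2⟩ := exists_ini (b := bx G x) hs2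
  have hw3 : w' ∈ S := hdown s hs w' hw2
  obtain ⟨t, ht, n, rfl⟩ := len_eq_opow hw'
  have h1' : ∀ w ∈ Words δ, (w ∈ S ↔ (w, w) ∈ G.S δ) := by
    intro w hw
    rw [← h1 w hw w hw]
    simp
  obtain ⟨k, hk⟩ := sl_kill1 G hδ x hX hY (fun t' ht' n' => by
    refine ⟨f t' n', (h2 t' ht' t' ht' n' n').1, fun w hw hwG heq => ?_⟩
    have h3 : w ∈ S := (h1' w hw).2 hwG
    apply hf t' n'
    exact hdown w h3 _ (ini_of_ev_eq heq.symm)) t ht n
  have hmem : t ++ sh n (sl G hδ x k) ∈ Words δ :=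
    append_mem.2 ⟨ht, sh_mem.2 ((sl_bas G hδ x).mem k)⟩
  have hS : t ++ sh n (sl G hδ x k) ∈ S := hdown _ hw3 _ (ini_sl G hδ x t n k)
  exact hk _ hmem ((h1' _ hmem).1 hS) rfl

/-- **Capturing of pairs.** -/
theorem capture2 {G : Gd} (hG : Guesses G) {x y : Set W} (hxy : x ≠ y) (S : Set (Word × Word))
    (hdown : ∀ p ∈ S, ∀ u u', Ini (bx G x) u p.1 → Ini (bx G y) u' p.2 → (u, u') ∈ S)
    (hbig : ∀ z : W, ∃ p ∈ S, ρ z ≤ len p.1 ∧ ρ z ≤ len p.2) :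
    ∃ (t t' : Word) (n n' : M), ∀ v v', (t ++ sh n v, t' ++ sh n' v') ∈ S := by
  by_contra hcon
  push Not at hcon
  choose f f' hf using hcon
  obtain ⟨γ₀, hγ₀⟩ : ∃ γ₀, ¬ (γ₀ ∈ x ↔ γ₀ ∈ y) := by
    by_contra h
    push Not at h
    exact hxy (Set.ext h)
  obtain ⟨δ, hδ₀, hX, hY, h1, h2⟩ := hG x y S (fun t t' n n' => f t t' n n')
    (fun t t' n n' => f' t t' n n') γ₀
  have hδ : ∃ γ, γ < δ := ⟨γ₀, hδ₀⟩
  have hne : x ∩ Iio δ ≠ y ∩ Iio δ := by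
    intro h
    apply hγ₀
    have := Set.ext_iff.1 h γ₀
    simp only [mem_inter_iff, mem_Iio, hδ₀, and_true] at this
    exact this
  obtain ⟨z, hz⟩ : ∃ z, ρ z = ω ^ ρ δ :=
    exists_ρ (Ordinal.isPrincipal_opow_omega 1 omega0_lt_omega_one (ρ_lt δ))
  obtain ⟨p, hp, hp1, hp2⟩ := hbig z
  rw [hz] at hp1 hp2
  obtain ⟨w, hw, hw2⟩ := exists_ini (b := bx G x) hp1
  obtain ⟨w', hw', hw2'⟩ := exists_ini (b := bx G y) hp2
  have hw3 : (w, w') ∈ S := hdown p hp w w' hw2 hw2'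
  obtain ⟨t, ht, n, rfl⟩ := len_eq_opow hw
  obtain ⟨t', ht', n', rfl⟩ := len_eq_opow hw'
  obtain ⟨k, hk⟩ := sl_kill2 G hδ x y hX hY hne (fun s hs s' hs' m m' => by
    refine ⟨f s s' m m', (h2 s hs s' hs' m m').1, f' s s' m m', (h2 s hs s' hs' m m').2,
      fun w hw w' hw' hwG heq => ?_⟩
    have h3 : (w, w') ∈ S := (h1 w hw w' hw').2 hwG
    apply hf s s' m m'
    exact hdown _ h3 _ _ (ini_of_ev_eq heq.1.symm) (ini_of_ev_eq heq.2.symm)) t ht t' ht' n n'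
  have hmem : t ++ sh n (sl G hδ x k) ∈ Words δ :=
    append_mem.2 ⟨ht, sh_mem.2 ((sl_bas G hδ x).mem k)⟩
  have hmem' : t' ++ sh n' (sl G hδ y k) ∈ Words δ :=
    append_mem.2 ⟨ht', sh_mem.2 ((sl_bas G hδ y).mem k)⟩
  have hS : (t ++ sh n (sl G hδ x k), t' ++ sh n' (sl G hδ y k)) ∈ S :=
    hdown _ hw3 _ _ (ini_sl G hδ x t n k) (ini_sl G hδ y t' n' k)
  exact hk _ hmem _ hmem' ((h1 _ hmem _ hmem').1 hS) ⟨rfl, rfl⟩

end Pool.Agent.H635.DM
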